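import Mathlib

/-!
Not every tropical polynomial on the cube with integer supermodular coefficients is the tail
function of a tropicalized Gaussian over a non-archimedean local field.
-/

set_option autoImplicit false

namespace Pool.Agent.Results.MP_90534d_pr.SupermodularNotRealised

open MeasureTheory ValuativeRel

noncomputable section

variable (K : Type*) [Field K] [ValuativeRel K] [TopologicalSpace K] [IsNonarchimedeanLocalField K]

/-- The size `q` of the residue field. -/
def q : ℕ := Nat.card 𝓀[K]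

variable {K}

/-- The lattice `A 𝒪^d`. -/
def lattice {d : ℕ} (A : Matrix.GeneralLinearGroup (Fin d) K) : Set (Fin d → K) :=
  {x | ∃ z : Fin d → K, (∀ i, z i ∈ 𝒪[K]) ∧ x = (A : Matrix (Fin d) (Fin d) K).mulVec z}

/-- The law of the Gaussian with lattice `L = A 𝒪^d`: the normalised Haar probability measure of
`L`, that is, the Haar measure of `K^d` conditioned on `L` (a Borel measure on `K^d`). -/
def gaussianLaw {d : ℕ} (A : Matrix.GeneralLinearGroup (Fin d) K) :
    @Measure (Fin d → K) (borel (Fin d → K)) :=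
  letI : MeasurableSpace (Fin d → K) := borel (Fin d → K)
  haveI : BorelSpace (Fin d → K) := ⟨rfl⟩
  ProbabilityTheory.cond Measure.addHaar (lattice A)

/-- `val x ≥ n`, that is, `x ∈ π^n 𝒪` (with `π` a uniformiser). -/
def ValGE (π : 𝒪[K]) (x : K) (n : ℤ) : Prop := ∃ z ∈ 𝒪[K], x = (π : K) ^ n * z

/-- The probability that the tropicalization `V` of the Gaussian satisfies `V ≥ v`. -/
def tailProb {d : ℕ} (π : 𝒪[K]) (A : Matrix.GeneralLinearGroup (Fin d) K) (v : Fin d → ℤ) : ℝ :=
  (gaussianLaw A {x | ∀ i, ValGE π (x i) (v i)}).toReal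

/-- `φ_L(v) = - log_q P(V ≥ v)`. -/
def phi {d : ℕ} (π : 𝒪[K]) (A : Matrix.GeneralLinearGroup (Fin d) K) (v : Fin d → ℤ) : ℝ :=
  - Real.logb (q K) (tailProb π A v)

/-- The tropical polynomial supported on the cube with coefficients `c`. -/
def tropPoly {d : ℕ} (c : Finset (Fin d) → ℤ) (v : Fin d → ℝ) : ℝ :=
  Finset.univ.sup' Finset.univ_nonempty (fun I : Finset (Fin d) => (∑ i ∈ I, v i) - (c I : ℝ))

/-- Supermodular coefficients, normalised by `c ∅ = 0`. -/
def IsSupermodular {d : ℕ} (c : Finset (Fin d) → ℤ) : Prop :=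
  c ∅ = 0 ∧ ∀ I J, c I + c J ≤ c (I ∪ J) + c (I ∩ J)

/-- the coefficients of the counterexample -/
def cc (d : ℕ) (I : Finset (Fin d)) : ℤ := (I.card : ℤ) - min (I.card : ℤ) 2

lemma cc_super (d : ℕ) : IsSupermodular (cc d) := by
  constructor
  · simp [cc]
  · intro I J
    have h1 := Finset.card_union_add_card_inter I J
    have h2 : (I ∩ J).card ≤ I.card := Finset.card_le_card Finset.inter_subset_left
    have h3 : (I ∩ J).card ≤ J.card := Finset.card_le_card Finset.inter_subset_right
    unfold cc
    omega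

lemma cc_nonneg (d : ℕ) (I : Finset (Fin d)) : 0 ≤ cc d I := by
  unfold cc; omega

lemma trop_eq {d : ℕ} {c : Finset (Fin d) → ℤ} {v : Fin d → ℝ} {m : ℝ} (I : Finset (Fin d))
    (hI : (∑ i ∈ I, v i) - (c I : ℝ) = m) (hle : ∀ J : Finset (Fin d), (∑ i ∈ J, v i) - (c J : ℝ) ≤ m) :
    tropPoly c v = m := by
  unfold tropPoly
  apply le_antisymm
  · exact Finset.sup'_le _ _ (fun J _ => hle J)
  · rw [← hI]
    exact Finset.le_sup' (fun I : Finset (Fin d) => (∑ i ∈ I, v i) - (c I : ℝ)) (Finset.mem_univ I)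

lemma closed_ball (π : 𝒪[K]) (hπ : (π : K) ≠ 0) (n : ℤ) : IsClosed {x : K | ValGE π x n} := by
  have hpn : (π : K) ^ n ≠ 0 := zpow_ne_zero n hπ
  have : {x : K | ValGE π x n} = {x : K | (valuation K).restrict x ≤ (valuation K).restrict ((π : K) ^ n)} := by
    ext x
    simp only [Set.mem_ofPred_eq]
    rw [Valuation.restrict_le_iff]
    constructor
    · rintro ⟨z, hz, rfl⟩
      rw [map_mul]
      exact mul_le_of_le_one_right' hz
    · intro h
      refine ⟨((π : K) ^ n)⁻¹ * x, ?_, by field_simp⟩
      change valuation K _ ≤ 1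
      rw [map_mul, map_inv₀]
      have hv : valuation K ((π : K) ^ n) ≠ 0 := (Valuation.ne_zero_iff _).mpr hpn
      calc (valuation K ((π : K) ^ n))⁻¹ * valuation K x ≤ (valuation K ((π : K) ^ n))⁻¹ * valuation K ((π : K) ^ n) := by
            gcongr
        _ = 1 := inv_mul_cancel₀ hv
  rw [this]
  exact Valuation.isClosed_closedBall _

lemma measure_count {X : Type*} [MeasurableSpace X] (ν : Measure X) (hν : ν Set.univ ≤ 1) {d : ℕ}
    (E : Fin d → Set X) (T : Set X) (hE : ∀ i, MeasurableSet (E i)) (hT : MeasurableSet T)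
    (hTE : ∀ i, T ⊆ E i) (a b : ℝ) (hEa : ∀ i, (ν (E i)).toReal = a) (hTb : (ν T).toReal = b)
    (hpair : ∀ i j, i ≠ j → (ν (E i ∩ E j)).toReal = b) : d * (a - b) + b ≤ 1 := by
  have : IsFiniteMeasure ν := ⟨lt_of_le_of_lt hν ENNReal.one_lt_top⟩
  have h1 : ∀ i, ν.real (E i \ T) = a - b := by
    intro i
    rw [measureReal_sdiff (hTE i) hT]
    rw [Measure.real, Measure.real, hEa i, hTb]
  have hdisj : Pairwise (Function.onFun (AEDisjoint ν) (fun i => E i \ T)) := by
    intro i j hij
    have h2 : (E i \ T) ∩ (E j \ T) = (E i ∩ E j) \ T := by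
      ext x; simp only [Set.mem_inter_iff, Set.mem_sdiff]; tauto
    have h3 : ν.real ((E i ∩ E j) \ T) = 0 := by
      rw [measureReal_sdiff (Set.subset_inter (hTE i) (hTE j)) hT]
      rw [Measure.real, Measure.real, hpair i j hij, hTb, sub_self]
    have h4 : ν ((E i \ T) ∩ (E j \ T)) = 0 := by
      rw [h2]
      rwa [measureReal_eq_zero_iff] at h3
    exact h4
  have hU : ν (⋃ i, (E i \ T)) = ∑' i, ν (E i \ T) :=
    measure_iUnion₀ hdisj (fun i => ((hE i).diff hT).nullMeasurableSet)
  have hUr : ν.real (⋃ i, (E i \ T)) = d * (a - b) := by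
    rw [Measure.real, hU, tsum_fintype, ENNReal.toReal_sum (fun i _ => measure_ne_top ν _)]
    rw [Finset.sum_congr rfl (fun i _ => show (ν (E i \ T)).toReal = a - b from h1 i)]
    simp [mul_sub]
  have hdj : Disjoint (⋃ i, (E i \ T)) T := by
    rw [Set.disjoint_left]
    intro x hx hxT
    rw [Set.mem_iUnion] at hx
    obtain ⟨i, hi⟩ := hx
    exact hi.2 hxT
  have hfin : ν.real ((⋃ i, (E i \ T)) ∪ T) = d * (a - b) + b := by
    rw [measureReal_union hdj hT, hUr, Measure.real, hTb]
  rw [← hfin]
  have h5 : ν.real ((⋃ i, (E i \ T)) ∪ T) ≤ ν.real Set.univ := measureReal_mono (Set.subset_univ _)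
  have h6 : ν.real Set.univ ≤ 1 := by
    rw [Measure.real]
    exact ENNReal.toReal_le_of_le_ofReal zero_le_one (by simpa using hν)
  linarith

lemma gaussianLaw_univ_le {d : ℕ} (A : Matrix.GeneralLinearGroup (Fin d) K) :
    gaussianLaw A Set.univ ≤ 1 := by
  let _ : MeasurableSpace (Fin d → K) := borel (Fin d → K)
  have _ : BorelSpace (Fin d → K) := ⟨rfl⟩
  change ProbabilityTheory.cond Measure.addHaar (lattice A) Set.univ ≤ 1
  unfold ProbabilityTheory.cond
  rw [Measure.smul_apply, Measure.restrict_apply_univ, smul_eq_mul]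
  exact ENNReal.inv_mul_le_one _

omit [TopologicalSpace K] [IsNonarchimedeanLocalField K] in
lemma valGE_zero {π : 𝒪[K]} {x : K} (h : ValGE π x 1) : ValGE π x 0 := by
  obtain ⟨z, hz, rfl⟩ := h
  exact ⟨(π : K) ^ (1 : ℤ) * z, mul_mem (by rw [zpow_one]; exact π.2) hz, by simp⟩

lemma prob_of_log {q P : ℝ} (hq : 1 < q) (hP : 0 ≤ P) {k : ℕ} (hk : k ≠ 0)
    (h : - Real.logb q P = k) : P = (q ^ k)⁻¹ := by
  have hP0 : P ≠ 0 := by
    intro h0
    rw [h0, Real.logb_zero, neg_zero] at h
    exact hk (by exact_mod_cast h.symm)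
  have hPpos : 0 < P := lt_of_le_of_ne hP (Ne.symm hP0)
  have h1 : Real.logb q P = -(k : ℝ) := by linarith
  rw [Real.logb_eq_iff_rpow_eq (by linarith) (by linarith) hPpos] at h1
  rw [← h1, Real.rpow_neg (by linarith), Real.rpow_natCast]

lemma main {d : ℕ} (hd : d = q K + 2) (π : 𝒪[K]) (hπ : Irreducible π)
    (A : Matrix.GeneralLinearGroup (Fin d) K)
    (hall : ∀ v : Fin d → ℤ, phi π A v = tropPoly (cc d) (fun i => (v i : ℝ))) : False := by
  classical
  have hπ0 : (π : K) ≠ 0 := by
    intro h
    exact hπ.ne_zero (Subtype.ext h)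
  have hq : 1 < q K := Finite.one_lt_card
  have hqR : (1 : ℝ) < (q K : ℝ) := by exact_mod_cast hq
  let _ : MeasurableSpace (Fin d → K) := borel (Fin d → K)
  have _ : BorelSpace (Fin d → K) := ⟨rfl⟩
  set ν : Measure (Fin d → K) := gaussianLaw A with hν
  set Sv : (Fin d → ℤ) → Set (Fin d → K) := fun v => {x | ∀ i, ValGE π (x i) (v i)} with hSv
  have hmeas : ∀ v, MeasurableSet (Sv v) := by
    intro v
    have : Sv v = ⋂ i, (fun x : Fin d → K => x i) ⁻¹' {x : K | ValGE π x (v i)} := by
      ext x; simp [hSv]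
    rw [this]
    exact (isClosed_iInter (fun i => (closed_ball π hπ0 (v i)).preimage (continuous_apply i))).measurableSet
  have hprob : ∀ (v : Fin d → ℤ) (k : ℕ), k ≠ 0 → tropPoly (cc d) (fun i => (v i : ℝ)) = k →
      (ν (Sv v)).toReal = ((q K : ℝ) ^ k)⁻¹ := by
    intro v k hk h
    have h1 := hall v
    rw [h] at h1
    exact prob_of_log hqR ENNReal.toReal_nonneg hk h1
  set e : Fin d → Fin d → ℤ := fun i k => if k = i then 1 else 0 with he
  have hccle : ∀ J : Finset (Fin d), (0 : ℝ) ≤ (cc d J : ℝ) := fun J => by exact_mod_cast cc_nonneg d J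
  have hsum_e : ∀ (i : Fin d) (J : Finset (Fin d)), ∑ k ∈ J, ((e i k : ℤ) : ℝ) = if i ∈ J then 1 else 0 := by
    intro i J
    simp only [he, Int.cast_ite, Int.cast_one, Int.cast_zero, Finset.sum_ite_eq']
  have hE : ∀ i, (ν (Sv (e i))).toReal = ((q K : ℝ) ^ 1)⁻¹ := by
    intro i
    apply hprob _ 1 one_ne_zero
    apply trop_eq {i}
    · rw [hsum_e]; simp [cc]
    · intro J
      rw [hsum_e]
      have := hccle J
      split_ifs <;> push_cast <;> linarith
  have hcard2 : ∀ i j : Fin d, i ≠ j → cc d {i, j} = 0 := by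
    intro i j hij
    unfold cc
    rw [Finset.card_pair hij]
    simp
  have hEE : ∀ i j, i ≠ j → (ν (Sv (e i) ∩ Sv (e j))).toReal = ((q K : ℝ) ^ 2)⁻¹ := by
    intro i j hij
    have hset : Sv (e i) ∩ Sv (e j) = Sv (e i + e j) := by
      ext x
      simp only [hSv, Set.mem_inter_iff, Set.mem_ofPred_eq, he, Pi.add_apply]
      constructor
      · rintro ⟨h1, h2⟩ k
        have h1k := h1 k
        have h2k := h2 k
        by_cases hki : k = i
        · have hkj : k ≠ j := fun h => hij (hki.symm.trans h)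
          simp only [if_pos hki, if_neg hkj, add_zero] at h1k ⊢
          exact h1k
        · simp only [if_neg hki, zero_add]
          exact h2k
      · intro h
        constructor
        · intro k
          have hk := h k
          by_cases hki : k = i
          · have hkj : k ≠ j := fun h => hij (hki.symm.trans h)
            simp only [if_pos hki, if_neg hkj, add_zero] at hk ⊢
            exact hk
          · simp only [if_neg hki, zero_add] at hk ⊢
            by_cases hkj : k = j
            · rw [if_pos hkj] at hk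
              exact valGE_zero hk
            · rw [if_neg hkj] at hk
              exact hk
        · intro k
          have hk := h k
          by_cases hkj : k = j
          · have hki : k ≠ i := fun h => hij (h.symm.trans hkj)
            simp only [if_pos hkj, if_neg hki, zero_add] at hk ⊢
            exact hk
          · simp only [if_neg hkj, add_zero] at hk ⊢
            by_cases hki : k = i
            · rw [if_pos hki] at hk
              exact valGE_zero hk
            · rw [if_neg hki] at hk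
              exact hk
    rw [hset]
    apply hprob _ 2 two_ne_zero
    have hsum2 : ∀ J : Finset (Fin d), ∑ k ∈ J, (((e i + e j) k : ℤ) : ℝ) =
        (if i ∈ J then 1 else 0) + (if j ∈ J then 1 else 0) := by
      intro J
      rw [← hsum_e, ← hsum_e, ← Finset.sum_add_distrib]
      refine Finset.sum_congr rfl (fun k _ => ?_)
      simp
    apply trop_eq {i, j}
    · rw [hsum2, hcard2 i j hij]
      simp
      norm_num
    · intro J
      rw [hsum2]
      have := hccle J
      split_ifs <;> push_cast <;> linarith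
  have hT : (ν (Sv (fun _ => 1))).toReal = ((q K : ℝ) ^ 2)⁻¹ := by
    apply hprob _ 2 two_ne_zero
    have hd2 : 2 ≤ d := by omega
    set i0 : Fin d := ⟨0, by omega⟩
    set i1 : Fin d := ⟨1, by omega⟩
    have h01 : i0 ≠ i1 := by simp [i0, i1, Fin.ext_iff]
    apply trop_eq {i0, i1}
    · rw [hcard2 i0 i1 h01]
      simp [Finset.card_pair h01]
    · intro J
      simp only [Int.cast_one, Finset.sum_const, nsmul_eq_mul, mul_one, cc, Int.cast_sub, Int.cast_natCast,
        Int.cast_min, Int.cast_ofNat]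
      have : min (J.card : ℝ) 2 ≤ 2 := min_le_right _ _
      push_cast
      linarith
  have hTE : ∀ i, Sv (fun _ => 1) ⊆ Sv (e i) := by
    intro i x hx k
    have hk := hx k
    by_cases hki : k = i
    · simp only [he, if_pos hki]
      exact hk
    · simp only [he, if_neg hki]
      exact valGE_zero hk
  have hfin := measure_count ν (gaussianLaw_univ_le A) (fun i => Sv (e i)) (Sv (fun _ => 1))
    (fun i => hmeas _) (hmeas _) hTE _ _ hE hT hEE
  have hd' : (d : ℝ) = (q K : ℝ) + 2 := by rw [hd]; push_cast; ring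
  rw [hd', pow_one] at hfin
  have hq0 : (q K : ℝ) ≠ 0 := by linarith
  have h7 : ((q K : ℝ) + 2) * ((q K : ℝ)⁻¹ - ((q K : ℝ) ^ 2)⁻¹) + ((q K : ℝ) ^ 2)⁻¹ =
      1 + ((q K : ℝ) - 1) / (q K : ℝ) ^ 2 := by
    field_simp
    ring
  rw [h7] at hfin
  have h8 : 0 < ((q K : ℝ) - 1) / (q K : ℝ) ^ 2 := div_pos (by linarith) (by positivity)
  linarith

/-- For every non-archimedean local field `K` with residue field of size `q`, in dimension
`d = q + 2` there are integer supermodular coefficients `c` such that the restriction to `ℤ^d` of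
the tropical polynomial with coefficients `c` is not `φ_L` for any lattice `L = A 𝒪^d`. -/
theorem result (K : Type*) [Field K] [ValuativeRel K] [TopologicalSpace K]
    [IsNonarchimedeanLocalField K] :
    ∃ c : Finset (Fin (q K + 2)) → ℤ, IsSupermodular c ∧
      ∀ π : 𝒪[K], Irreducible π → ∀ A : Matrix.GeneralLinearGroup (Fin (q K + 2)) K,
        ¬ ∀ v : Fin (q K + 2) → ℤ, phi π A v = tropPoly c (fun i => (v i : ℝ)) := by
  exact ⟨cc (q K + 2), cc_super _, fun π hπ A hall => main rfl π hπ A hall⟩

end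

end Pool.Agent.Results.MP_90534d_pr.SupermodularNotRealised
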